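import Pool.Agent.Lib.MP_7f6eca_an.Quat

namespace Pool.Agent.Results.MP_7f6eca_an.Hyperplane

open Pool.Agent.Lib.MP_7f6eca_an

section

variable {E : Type} [AddCommGroup E] [Module ℝ E] (q : E → ℝ)

/-- The space with quasi-norm `q` has a complex structure. -/
def HasCS : Prop := ∃ J : E →ₗ[ℝ] E, IsCS q J

/-- The kernel of some nonzero bounded functional has a complex structure. -/
def HypCS : Prop := ∃ f : E →ₗ[ℝ] ℝ, f ≠ 0 ∧ (∃ C : ℝ, ∀ z, |f z| ≤ C * q z) ∧
  HasCS fun z : LinearMap.ker f => q z.1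

end

/-- No closed hyperplane of the real Kalton-Peck space carries a complex structure. -/
theorem result : ¬ HypCS qnorm := by
  rintro ⟨f, hf, ⟨C, hC⟩, J, hJ⟩
  exact no_cs_ker f hf hC J hJ

end Pool.Agent.Results.MP_7f6eca_an.Hyperplane
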