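import Pool.Agent.Lib.MP_7f6eca_an.Quat
import Pool.Agent.Lib.MP_7f6eca_an.Open

namespace Pool.Agent.Results.MP_7f6eca_an.Quaternionic

open Pool.Agent.Lib.MP_7f6eca_an

section

variable {E : Type} [AddCommGroup E] [Module ℝ E] (q : E → ℝ)

/-- A bounded real-linear bijection intertwines `J₁` and `J₂`. -/
def BijCS (J₁ J₂ : E →ₗ[ℝ] E) : Prop :=
  ∃ T : E →ₗ[ℝ] E, BddFor q T ∧ Function.Bijective T ∧ ∀ z, T (J₁ z) = J₂ (T z)

/-- `J` extends to a quaternionic structure: some complex structure anticommutes with it. -/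
def Quat (J : E →ₗ[ℝ] E) : Prop := ∃ K : E →ₗ[ℝ] E, IsCS q K ∧ ∀ z, K (J z) = -J (K z)

/-- There are complex structures `J₁`, `J₂` such that `J₁` extends to a quaternionic structure and
no complex structure with such an extension is intertwined with `J₂` by a bounded bijection. -/
def Separated : Prop := ∃ J₁ J₂ : E →ₗ[ℝ] E, IsCS q J₁ ∧ IsCS q J₂ ∧ Quat q J₁ ∧
  ∀ J : E →ₗ[ℝ] E, IsCS q J → Quat q J → ¬ BijCS q J J₂

end

/-- The Kalton-Peck space has a complex structure that extends to a quaternionic structure and a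
complex structure that is isomorphic to no structure with such an extension. -/
theorem result : Separated qnorm := by
  refine ⟨J1, J3, J1_cs, J3_cs, ⟨K1, K1_cs, K1_J1⟩, ?_⟩
  rintro J - ⟨K, hK, hKJ⟩ ⟨T, h1, hb, h3⟩
  let U := LinearEquiv.ofBijective T hb
  have h4 : ∀ z, T (U.symm z) = z := U.apply_symm_apply
  have h5 : ∀ z, U.symm (T z) = z := U.symm_apply_apply
  have h6 : ∀ z, U.symm (J3 z) = J (U.symm z) := fun z => by rw [← h5 (J _), h3, h4]
  refine no_quat (K := T ∘ₗ K ∘ₗ U.symm.toLinearMap)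
    ⟨Bdd.comp h1 (Bdd.comp hK.1 (bdd_symm U h1)), fun z => ?_⟩ fun z => ?_
  · change T (K (U.symm (T (K (U.symm z))))) = -z
    rw [h5, hK.2, map_neg, h4]
  · change T (K (U.symm (J3 z))) = -J3 (T (K (U.symm z)))
    rw [h6, hKJ, map_neg, h3]

end Pool.Agent.Results.MP_7f6eca_an.Quaternionic
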